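import Pool.Agent.Helper428.AN.Main
import Pool.Agent.Helper428.ChromReal

/-!
The `n α` conjecture for chromatic roots.  Lemmas of the algebraic and graph part were written by
helpers 989, 714, 504, 21, 953, 252, 925, 170, 951, 854, 899, 322, 415, 357, 373, 221 and others
from a blueprint by helper428.
-/

set_option autoImplicit false

open Polynomial

namespace Pool.Agent.Results.MP_ee3a40_co.AlphaTimesN

/-- `p` is the chromatic polynomial of `G`. -/
def IsChromaticPolynomial {V : Type} (G : SimpleGraph V) (p : ℤ[X]) : Prop :=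
  ∀ q : ℕ, 0 < q → p.eval (q : ℤ) = Nat.card (G.Coloring (Fin q))

/-- `z` is a chromatic root: a zero of the chromatic polynomial of some finite simple graph with at
least one vertex. -/
def IsChromaticRoot (z : ℂ) : Prop :=
  ∃ (m : ℕ) (G : SimpleGraph (Fin (m + 1))) (p : ℤ[X]), IsChromaticPolynomial G p ∧ aeval z p = 0

open Pool.Agent.Helper428.AN Pool.Agent.Helper428.Brown

lemma cnt_univ {V : Type} [Fintype V] [DecidableEq V] (G : SimpleGraph V) (q : ℕ) :
    cnt G Finset.univ q = Nat.card (G.Coloring (Fin q)) := by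
  unfold cnt
  apply Nat.card_congr
  exact
    { toFun := fun f => SimpleGraph.Coloring.mk (fun v => f.1 ⟨v, Finset.mem_univ v⟩)
        (fun {a b} h => f.2 ⟨a, Finset.mem_univ a⟩ ⟨b, Finset.mem_univ b⟩ h)
      invFun := fun c => ⟨fun v => c v.1, fun a b h => c.valid h⟩
      left_inv := fun f => rfl
      right_inv := fun c => rfl }

lemma eq_pol {m : ℕ} {G : SimpleGraph (Fin m)} {p : ℤ[X]} (h : IsChromaticPolynomial G p) :
    p = pol G Finset.univ :=
  pol_ext fun q hq => by rw [h q hq, pol_eval, cnt_univ]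

lemma chromaticRoot_of {z : ℂ} (h : ChromRoot z) : IsChromaticRoot z := by
  obtain ⟨m, G, p, hp, hz⟩ := h
  cases m with
  | zero =>
    exfalso
    have h1 : p = pol G Finset.univ := eq_pol fun q _ => hp q
    have h2 : (Finset.univ : Finset (Fin 0)) = ∅ := rfl
    rw [h1, h2, pol_empty] at hz
    simp at hz
  | succ m => exact ⟨m, G, p, fun q _ => hp q, hz⟩

lemma natCast_root (n : ℕ) : IsChromaticRoot (n : ℂ) := by
  refine ⟨n, ⊤, descPochhammer ℤ (n + 1), ?_, ?_⟩
  · intro q _
    rw [descPochhammer_eval_eq_descFactorial]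
    have e : (⊤ : SimpleGraph (Fin (n + 1))).Coloring (Fin q) ≃ (Fin (n + 1) ↪ Fin q) :=
      { toFun := fun c => ⟨fun v => c v, fun a b h => by
          by_contra hab
          exact c.valid (show (⊤ : SimpleGraph (Fin (n + 1))).Adj a b from hab) h⟩
        invFun := fun f => SimpleGraph.Coloring.mk f (fun {a b} h h' => h (f.injective h'))
        left_inv := fun f => rfl
        right_inv := fun c => rfl }
    rw [Nat.card_congr e, Nat.card_eq_fintype_card, Fintype.card_embedding_eq, Fintype.card_fin,
      Fintype.card_fin]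
  · have key : aeval (n : ℂ) (descPochhammer ℤ (n + 1)) =
        ∏ j ∈ Finset.range (n + 1), ((n : ℂ) - j) := by
      rw [← descPochhammer_eval_eq_prod_range, aeval_def, ← eval_map]
      congr 1
      exact descPochhammer_map (algebraMap ℤ ℂ) (n + 1)
    rw [key, Finset.prod_eq_zero_iff]
    exact ⟨n, by simp, by simp⟩

/-- A real chromatic root is `0`, `1` or greater than `1`. -/
lemma real_root {m : ℕ} {G : SimpleGraph (Fin m)} {p : ℤ[X]} (hp : IsChromaticPolynomial G p)
    {z : ℂ} (hz : aeval z p = 0) (him : z.im = 0) : z = 0 ∨ z = 1 ∨ 1 < z.re := by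
  have hzr : z = (z.re : ℂ) := by
    apply Complex.ext
    · simp
    · simp [him]
  rw [eq_pol hp] at hz
  have h1 : P G Finset.univ z = 0 := hz
  rw [hzr, P_ofReal] at h1
  have h2 : Pr G Finset.univ z.re = 0 := by exact_mod_cast h1
  rcases real_root_pol G Finset.univ z.re h2 with h | h | h
  · left; rw [hzr, h]; simp
  · right; left; rw [hzr, h]; simp
  · right; right; exact h

/-- **The `n α` conjecture.** -/
theorem result :
    ∀ α : ℂ, IsChromaticRoot α → ∀ n : ℕ, 0 < n → IsChromaticRoot ((n : ℂ) * α) := by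
  intro α hα n hn
  by_cases hnat : ∃ k : ℕ, α = k
  · obtain ⟨k, rfl⟩ := hnat
    have : ((n : ℂ) * (k : ℂ)) = ((n * k : ℕ) : ℂ) := by push_cast; ring
    rw [this]
    exact natCast_root _
  rcases Nat.lt_or_ge n 2 with hn2 | hn2
  · have : n = 1 := by omega
    subst this
    simpa using hα
  obtain ⟨m, G, p, hp, hroot⟩ := hα
  have hpmon : p.Monic := by
    rw [eq_pol hp]
    exact (pol_monic Finset.univ G).1
  have hαint : IsIntegral ℤ α := ⟨p, hpmon, hroot⟩
  have hαQ : IsIntegral ℚ α := hαint.tower_top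
  have hn0 : (n : ℂ) ≠ 0 := by exact_mod_cast (by omega : n ≠ 0)
  have hβint : IsIntegral ℤ ((n : ℂ) * α) := (isIntegral_algebraMap (R := ℤ) (x := (n : ℤ))).mul hαint
  -- real roots of p
  have hreal := fun (z : ℂ) (hz : aeval z p = 0) (him : z.im = 0) => real_root hp hz him
  -- conjugates
  have hconjα : ∀ z : ℂ, aeval z (minpoly ℚ α) = 0 → aeval z p = 0 := by
    intro z hz
    have h1 : minpoly ℚ α ∣ p.map (algebraMap ℤ ℚ) := by
      apply minpoly.dvd
      rw [aeval_map_algebraMap]
      exact hroot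
    obtain ⟨c, hc⟩ := h1
    have h2 : aeval z (p.map (algebraMap ℤ ℚ)) = 0 := by rw [hc, map_mul, hz, zero_mul]
    rw [aeval_map_algebraMap] at h2
    exact h2
  -- α is not a rational number
  have hαrat : ∀ t : ℚ, α ≠ (t : ℂ) := by
    intro t ht
    have h1 : IsIntegral ℤ t := by
      have h2 : IsIntegral ℤ ((algebraMap ℚ ℂ) t) := by
        have : (algebraMap ℚ ℂ) t = α := by rw [ht]; rfl
        rw [this]
        exact hαint
      exact (isIntegral_algebraMap_iff (algebraMap ℚ ℂ).injective).1 h2
    obtain ⟨k, hk⟩ := IsIntegrallyClosed.isIntegral_iff.1 h1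
    have hk' : t = (k : ℚ) := by rw [← hk]; simp
    have h3 : α = ((k : ℤ) : ℂ) := by rw [ht, hk']; push_cast; rfl
    have h4 := hreal α hroot (by rw [h3]; simp)
    have hk0 : 0 ≤ k := by
      rcases h4 with h | h | h
      · rw [h3] at h
        have : k = 0 := by exact_mod_cast h
        omega
      · rw [h3] at h
        have : k = 1 := by exact_mod_cast h
        omega
      · rw [h3] at h
        have h5 : (1 : ℝ) < (k : ℝ) := by simpa using h
        have : (1 : ℤ) < k := by exact_mod_cast h5
        omega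
    exact hnat ⟨k.toNat, by
      rw [h3]
      have : ((k.toNat : ℤ) : ℂ) = (k : ℂ) := by rw [Int.toNat_of_nonneg hk0]
      rw [← this]
      push_cast
      rfl⟩
  apply chromaticRoot_of
  apply chrom_of_conj _ hβint
  · intro k hk
    apply hαrat ((k : ℚ) / n)
    push_cast
    rw [eq_div_iff hn0]
    linear_combination hk
  · intro z hz
    by_cases him : z.im = 0
    swap
    · exact Or.inl him
    right
    -- z / n is a conjugate of α
    have h1 : aeval (z / n) (minpoly ℚ α) = 0 := by
      have h2 : minpoly ℚ ((n : ℂ) * α) ∣ (minpoly ℚ α).comp (C ((n : ℚ)⁻¹) * X) := by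
        apply minpoly.dvd
        rw [aeval_comp]
        have : aeval ((n : ℂ) * α) (C ((n : ℚ)⁻¹) * X) = α := by
          rw [map_mul, aeval_C, aeval_X]
          have : (algebraMap ℚ ℂ) ((n : ℚ)⁻¹) = (n : ℂ)⁻¹ := by simp
          rw [this, ← mul_assoc, inv_mul_cancel₀ hn0, one_mul]
        rw [this, minpoly.aeval]
      obtain ⟨c, hc⟩ := h2
      have h3 : aeval z ((minpoly ℚ α).comp (C ((n : ℚ)⁻¹) * X)) = 0 := by
        rw [hc, map_mul, hz, zero_mul]
      rw [aeval_comp] at h3
      have : aeval z (C ((n : ℚ)⁻¹) * X : ℚ[X]) = z / n := by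
        rw [map_mul, aeval_C, aeval_X]
        have : (algebraMap ℚ ℂ) ((n : ℚ)⁻¹) = (n : ℂ)⁻¹ := by simp
        rw [this]
        ring
      rwa [this] at h3
    have h2 := hconjα _ h1
    have him' : (z / n : ℂ).im = 0 := by
      rw [Complex.div_natCast_im, him, zero_div]
    have hn2' : (2 : ℝ) ≤ n := by exact_mod_cast hn2
    rcases hreal _ h2 him' with h | h | h
    · exfalso
      rw [h] at h1
      apply hαrat 0
      have h3 : minpoly ℚ (0 : ℂ) = minpoly ℚ α :=
        (minpoly.eq_of_irreducible_of_monic (minpoly.irreducible hαQ) h1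
          (minpoly.monic hαQ)).symm
      have h4 : aeval α (minpoly ℚ (0 : ℂ)) = 0 := by rw [h3]; exact minpoly.aeval _ _
      rw [minpoly.zero, aeval_X] at h4
      rw [h4]
      simp
    · exfalso
      rw [h] at h1
      apply hαrat 1
      have h3 : minpoly ℚ (1 : ℂ) = minpoly ℚ α :=
        (minpoly.eq_of_irreducible_of_monic (minpoly.irreducible hαQ) h1
          (minpoly.monic hαQ)).symm
      have h4 : aeval α (minpoly ℚ (1 : ℂ)) = 0 := by rw [h3]; exact minpoly.aeval _ _
      rw [minpoly.one, map_sub, aeval_X, map_one] at h4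
      rw [sub_eq_zero.1 h4]
      simp
    · rw [Complex.div_natCast_re] at h
      rw [lt_div_iff₀ (by linarith)] at h
      linarith

end Pool.Agent.Results.MP_ee3a40_co.AlphaTimesN
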